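import Pool.Agent.H59.L.S8.W223.AK.Defs

/-! AK-UNI (helper45, for helper223): uniformisers with small conjugates. -/

set_option autoImplicit false

namespace Pool.Agent.W45.AK

open NumberField IsDedekindDomain Finset Pool.Agent.H691R3 Pool.Agent.W223.AK Module
open NumberField.mixedEmbedding NumberField.InfinitePlace MeasureTheory nonZeroDivisors
open scoped ENNReal NNReal

variable {K : Type} [Field K] [NumberField K]

/-- Minkowski: small elements of ideals -/
theorem exists_small : ∃ L : ℝ, 0 ≤ L ∧ ∀ I : Ideal (𝓞 K), I ≠ ⊥ → ∃ β : 𝓞 K, β ∈ I ∧ β ≠ 0 ∧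
    ∀ w : InfinitePlace K, (finrank ℚ K : ℝ) * Real.log (w (β : K)) ≤
      L + Real.log (Ideal.absNorm I) := by
  classical
  set V : ℝ≥0∞ := volume (ZSpan.fundamentalDomain (latticeBasis K)) *
    (2 : ℝ≥0∞) ^ (finrank ℝ (mixedSpace K)) with hV
  have hVtop : V < ⊤ := by
    exact ENNReal.mul_lt_top (ZSpan.fundamentalDomain_isBounded _).measure_lt_top
      (ENNReal.pow_lt_top ENNReal.ofNat_lt_top)
  obtain ⟨b, hb⟩ : ∃ b : ℝ≥0, (b : ℝ≥0∞) = V := ⟨V.toNNReal, ENNReal.coe_toNNReal hVtop.ne⟩
  set d : ℕ := finrank ℚ K with hd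
  have hd0 : 0 < d := finrank_pos
  have hdR : (d : ℝ) ≠ 0 := by exact_mod_cast hd0.ne'
  refine ⟨Real.log ((b : ℝ) + 1), Real.log_nonneg (by have := b.2; linarith), ?_⟩
  intro I hI
  have hN0 : Ideal.absNorm I ≠ 0 := by rwa [Ne, Ideal.absNorm_eq_zero_iff]
  have hIu : (I : FractionalIdeal (𝓞 K)⁰ K) ≠ 0 := by
    rwa [Ne, FractionalIdeal.coeIdeal_eq_zero]
  let I' : (FractionalIdeal (𝓞 K)⁰ K)ˣ := Units.mk0 _ hIu
  set r : ℝ≥0 := ((b + 1) * (Ideal.absNorm I : ℝ≥0)) ^ (1 / (d : ℝ)) with hr
  have hrd : r ^ d = (b + 1) * (Ideal.absNorm I : ℝ≥0) := by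
    rw [hr, ← NNReal.rpow_natCast, ← NNReal.rpow_mul, one_div, inv_mul_cancel₀ hdR,
      NNReal.rpow_one]
  have hlt : minkowskiBound K I' < volume (convexBodyLT K (fun _ : InfinitePlace K => r)) := by
    have h1 : minkowskiBound K I' = ((Ideal.absNorm I : ℝ≥0) : ℝ≥0∞) * (b : ℝ≥0∞) := by
      unfold minkowskiBound
      rw [volume_fundamentalDomain_fractionalIdealLatticeBasis, mul_assoc, ← hV, ← hb]
      congr 1
      change ENNReal.ofReal ((FractionalIdeal.absNorm (I : FractionalIdeal (𝓞 K)⁰ K) : ℚ) : ℝ) = _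
      rw [FractionalIdeal.coeIdeal_absNorm]
      rw [Rat.cast_natCast, ENNReal.ofReal_natCast]
      simp
    rw [h1, convexBodyLT_volume]
    have h2 : ∏ w : InfinitePlace K, r ^ w.mult = (b + 1) * (Ideal.absNorm I : ℝ≥0) := by
      rw [Finset.prod_pow_eq_pow_sum, sum_mult_eq, hrd]
    have h3 : (((∏ w : InfinitePlace K, r ^ w.mult : ℝ≥0)) : ℝ≥0∞) =
        ((((b + 1) * (Ideal.absNorm I : ℝ≥0) : ℝ≥0)) : ℝ≥0∞) := by rw [h2]
    push_cast at h3 ⊢
    rw [h3]
    have h4 : (((Ideal.absNorm I : ℝ≥0) * b : ℝ≥0) : ℝ≥0∞) <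
        ((convexBodyLTFactor K * ((b + 1) * (Ideal.absNorm I : ℝ≥0)) : ℝ≥0) : ℝ≥0∞) := by
      rw [ENNReal.coe_lt_coe]
      have h5 := one_le_convexBodyLTFactor K
      have h6 : (0 : ℝ≥0) < (Ideal.absNorm I : ℝ≥0) := by
        have : (Ideal.absNorm I : ℝ≥0) ≠ 0 := by exact_mod_cast hN0
        exact pos_iff_ne_zero.mpr this
      calc (Ideal.absNorm I : ℝ≥0) * b < (Ideal.absNorm I : ℝ≥0) * (b + 1) :=
            mul_lt_mul_of_pos_left (lt_add_of_pos_right b one_pos) h6
        _ = 1 * ((b + 1) * (Ideal.absNorm I : ℝ≥0)) := by ring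
        _ ≤ convexBodyLTFactor K * ((b + 1) * (Ideal.absNorm I : ℝ≥0)) :=
            mul_le_mul_of_nonneg_right h5 (by positivity)
    push_cast at h4
    exact h4
  obtain ⟨a, ha, ha0, haw⟩ := exists_ne_zero_mem_ideal_lt K I' hlt
  have ha' : a ∈ (I : FractionalIdeal (𝓞 K)⁰ K) := ha
  rw [FractionalIdeal.mem_coeIdeal] at ha'
  obtain ⟨β, hβ, rfl⟩ := ha'
  refine ⟨β, hβ, ?_, ?_⟩
  · rintro rfl
    exact ha0 (map_zero _)
  · intro w
    have h1 : w (β : K) ≤ (r : ℝ) := (haw w).le
    have hpos : 0 < w (β : K) := InfinitePlace.pos_iff.mpr ha0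
    have h2 : (w (β : K)) ^ d ≤ ((b : ℝ) + 1) * (Ideal.absNorm I : ℝ) := by
      calc (w (β : K)) ^ d ≤ (r : ℝ) ^ d := pow_le_pow_left₀ hpos.le h1 d
        _ = ((r ^ d : ℝ≥0) : ℝ) := by push_cast; rfl
        _ = _ := by rw [hrd]; push_cast; rfl
    have h3 := Real.log_le_log (pow_pos hpos d) h2
    rw [Real.log_pow, Real.log_mul] at h3
    · exact h3
    · have := b.2
      have : (0 : ℝ) ≤ (b : ℝ) := this
      linarith
    · exact_mod_cast hN0

/-- sums of logarithms at the finite places -/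
lemma finite_part {x : K} (hx : x ≠ 0) (hle : ∀ u : Pr K, fv u x ≤ 1) (T : Finset (Pr K)) :
    -∑ w : InfinitePlace K, (w.mult : ℝ) * Real.log (w x) ≤ ∑ u ∈ T, Real.log (fv u x) := by
  classical
  have h := log_product_formula hx
  have hsub : (Function.support fun v : Pr K => Real.log (fv v x)) ⊆
      ((T ∪ (log_fv_support_finite hx).toFinset : Finset (Pr K)) : Set (Pr K)) := by
    intro v hv
    rw [Finset.coe_union, Set.mem_union]
    right
    rw [Set.Finite.coe_toFinset]
    exact hv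
  rw [finsum_eq_sum_of_support_subset _ hsub] at h
  have h2 : ∑ u ∈ T ∪ (log_fv_support_finite hx).toFinset, Real.log (fv u x) ≤
      ∑ u ∈ T, Real.log (fv u x) := by
    rw [← Finset.sum_sdiff (Finset.subset_union_left (s₁ := T)
      (s₂ := (log_fv_support_finite hx).toFinset))]
    have h3 : ∑ u ∈ (T ∪ (log_fv_support_finite hx).toFinset) \ T, Real.log (fv u x) ≤ 0 :=
      Finset.sum_nonpos fun u _ => Real.log_nonpos ((fv u).nonneg _) (hle u)
    linarith
  linarith

lemma finite_small (L : ℝ) : {v : Pr K | Real.log (Nv v) ≤ L}.Finite := by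
  have h := Ideal.finite_setOfPred_absNorm_le (S := 𝓞 K) ⌊Real.exp L⌋₊
  refine Set.Finite.of_injOn (f := fun v : Pr K => v.asIdeal) (t := _) ?_ ?_ h
  · intro v hv
    simp only [Set.mem_ofPred_eq] at hv ⊢
    apply Nat.le_floor
    have h1 : 0 < Nv v := by linarith [two_le_Nv v]
    have h2 := (Real.log_le_iff_le_exp h1).mp hv
    exact h2
  · intro v _ u _ h
    exact HeightOneSpectrum.ext h

theorem uni : StmtUNI K := by
  classical
  intro S₁
  obtain ⟨L, hL, hβ⟩ := exists_small (K := K)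
  have hβ' : ∀ v : Pr K, ∃ β : 𝓞 K, β ∈ v.asIdeal ∧ β ≠ 0 ∧
      ∀ w : InfinitePlace K, (finrank ℚ K : ℝ) * Real.log (w (β : K)) ≤
        L + Real.log (Nv v) := fun v => hβ v.asIdeal v.ne_bot
  choose β hmem hne hw using hβ'
  set d : ℝ := (finrank ℚ K : ℝ) with hd
  have hd0 : 0 < d := by rw [hd]; exact_mod_cast (finrank_pos (R := ℚ) (M := K))
  have hsum : ∑ w : InfinitePlace K, (w.mult : ℝ) = d := by
    rw [hd, ← sum_mult_eq (K := K)]
    push_cast
    rfl
  have hneK : ∀ v, (β v : K) ≠ 0 := fun v => RingOfIntegers.coe_ne_zero_iff.mpr (hne v)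
  have hle : ∀ v u : Pr K, fv u (β v : K) ≤ 1 := fun v u => fv_int_le_one u (β v)
  have hlog : ∀ v u : Pr K, Real.log (fv u (β v : K)) ≤ 0 := fun v u =>
    Real.log_nonpos ((fv u).nonneg _) (hle v u)
  have hterm : ∀ v (w : InfinitePlace K), (w.mult : ℝ) * Real.log (w (β v : K)) ≤
      (w.mult : ℝ) / d * (L + Real.log (Nv v)) := by
    intro v w
    have h1 := mul_le_mul_of_nonneg_left (hw v w) (by positivity : 0 ≤ (w.mult : ℝ) / d)
    have h2 : (w.mult : ℝ) / d * (d * Real.log (w (β v : K))) =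
        (w.mult : ℝ) * Real.log (w (β v : K)) := by
      field_simp
    rw [h2] at h1
    exact h1
  have htot : ∀ v, ∑ w : InfinitePlace K, (w.mult : ℝ) * Real.log (w (β v : K)) ≤
      L + Real.log (Nv v) := by
    intro v
    refine (Finset.sum_le_sum fun w _ => hterm v w).trans ?_
    rw [← Finset.sum_mul, ← Finset.sum_div, hsum, div_self hd0.ne', one_mul]
  have hv1 : ∀ v, Real.log (fv v (β v : K)) ≤ -Real.log (Nv v) := by
    intro v
    have h1 : fv v (β v : K) ≤ (Nv v) ^ (-((1 : ℕ) : ℤ)) := by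
      rw [fv_le_pow_iff, pow_one]
      exact hmem v
    have h2 := Real.log_le_log ((fv v).pos (hneK v)) h1
    rw [Real.log_zpow] at h2
    push_cast at h2
    linarith
  have hself : ∀ v, L < Real.log (Nv v) → fv v (β v : K) = (Nv v)⁻¹ := by
    intro v hv
    obtain ⟨n, hn⟩ := fv_zpow v (hneK v)
    have hlN := log_Nv_pos v
    have h1 := finite_part (hneK v) (hle v) {v}
    rw [Finset.sum_singleton, hn, Real.log_zpow] at h1
    have h2 := hv1 v
    rw [hn, Real.log_zpow] at h2
    have h3 := htot v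
    have h4 : (n : ℝ) ≤ -1 := by
      by_contra hcon
      push Not at hcon
      nlinarith
    have h5 : (-2 : ℝ) < n := by
      by_contra hcon
      push Not at hcon
      nlinarith
    have h6 : n = -1 := by
      have h7 : n ≤ -1 := by exact_mod_cast h4
      have h8 : -2 < n := by exact_mod_cast h5
      omega
    rw [hn, h6, zpow_neg_one]
  have hother : ∀ v u : Pr K, u ≠ v → -L ≤ Real.log (fv u (β v : K)) := by
    intro v u huv
    have h1 := finite_part (hneK v) (hle v) {u, v}
    rw [Finset.sum_pair huv] at h1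
    have h2 := hv1 v
    have h3 := htot v
    linarith
  have hone : ∀ v u : Pr K, u ≠ v → L < Real.log (Nv u) → fv u (β v : K) = 1 := by
    intro v u huv hu
    obtain ⟨n, hn⟩ := fv_zpow u (hneK v)
    have hlN := log_Nv_pos u
    have h1 := hother v u huv
    have h2 := hlog v u
    rw [hn, Real.log_zpow] at h1 h2
    have h5 : (-1 : ℝ) < n := by
      by_contra hcon
      push Not at hcon
      nlinarith
    have h6 : (n : ℝ) ≤ 0 := by
      by_contra hcon
      push Not at hcon
      nlinarith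
    have h7 : n = 0 := by
      have h8 : n ≤ 0 := by exact_mod_cast h6
      have h9 : -1 < n := by exact_mod_cast h5
      omega
    rw [hn, h7, zpow_zero]
  have hl2 : 0 < Real.log 2 := Real.log_pos (by norm_num)
  have hLC : ∀ v : Pr K, L ≤ L / Real.log 2 * Real.log (Nv v) := by
    intro v
    have h1 := log_two_le_log_Nv v
    calc L = L / Real.log 2 * Real.log 2 := by field_simp
      _ ≤ L / Real.log 2 * Real.log (Nv v) := by gcongr
  refine ⟨S₁ ∪ (finite_small L).toFinset, Finset.subset_union_left, fun v => (β v : K),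
    L / Real.log 2 + 1, ?_⟩
  have hS : ∀ v : Pr K, v ∉ S₁ ∪ (finite_small L).toFinset → L < Real.log (Nv v) := by
    intro v hv
    rw [Finset.mem_union, not_or, Set.Finite.mem_toFinset] at hv
    have := hv.2
    simp only [Set.mem_ofPred_eq, not_le] at this
    exact this
  refine ⟨?_, hneK, fun v hv => hself v (hS v hv), fun v _ u hu huv => hone v u huv (hS u hu), ?_⟩
  · have : 0 ≤ L / Real.log 2 := by positivity
    linarith
  · intro v hv u hu
    unfold Spl at hu
    rw [Finset.mem_disjSum] at hu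
    have hC := hLC v
    have hlN := log_Nv_pos v
    rcases hu with ⟨w, -, rfl⟩ | ⟨u', hu', rfl⟩
    · change |(w.mult : ℝ) * Real.log (w (β v : K))| ≤ _
      have hB : 0 ≤ L + Real.log (Nv v) := by linarith
      have hmult : (w.mult : ℝ) / d ≤ 1 := by
        rw [div_le_one hd0, ← hsum]
        exact Finset.single_le_sum (f := fun w : InfinitePlace K => (w.mult : ℝ))
          (fun w _ => by positivity) (Finset.mem_univ w)
      have hup : (w.mult : ℝ) * Real.log (w (β v : K)) ≤ L + Real.log (Nv v) := by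
        refine (hterm v w).trans ?_
        calc (w.mult : ℝ) / d * (L + Real.log (Nv v)) ≤ 1 * (L + Real.log (Nv v)) := by gcongr
          _ = _ := one_mul _
      have hlow : -(L + Real.log (Nv v)) ≤ (w.mult : ℝ) * Real.log (w (β v : K)) := by
        have h1 := finite_part (hneK v) (hle v) ∅
        rw [Finset.sum_empty, ← Finset.add_sum_erase _ _ (Finset.mem_univ w)] at h1
        have h2 : ∑ w' ∈ Finset.univ.erase w, (w'.mult : ℝ) * Real.log (w' (β v : K)) ≤
            L + Real.log (Nv v) := by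
          refine (Finset.sum_le_sum fun w' _ => hterm v w').trans ?_
          rw [← Finset.sum_mul, ← Finset.sum_div]
          have h3 : ∑ w' ∈ Finset.univ.erase w, (w'.mult : ℝ) ≤ d := by
            rw [← hsum]
            exact Finset.sum_le_sum_of_subset_of_nonneg (Finset.erase_subset _ _)
              (fun w _ _ => by positivity)
          calc (∑ w' ∈ Finset.univ.erase w, (w'.mult : ℝ)) / d * (L + Real.log (Nv v))
              ≤ d / d * (L + Real.log (Nv v)) := by gcongr
            _ = _ := by rw [div_self hd0.ne', one_mul]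
        linarith
      rw [abs_le]
      constructor <;> nlinarith
    · change |(1 : ℝ) * Real.log (fv u' (β v : K))| ≤ _
      rw [one_mul]
      have huv : u' ≠ v := by
        rintro rfl
        exact hv hu'
      have h1 := hother v u' huv
      have h2 := hlog v u'
      rw [abs_le]
      constructor <;> nlinarith

end Pool.Agent.W45.AK
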